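import Pool.Agent.Helper30.KC.GoalsT

/-!
# Packet KT-HM (MP_bf413e_co): few hubs, chains of hubs have bounded diameter
-/

set_option autoImplicit false

namespace Pool.Agent.Helper77.KT

open scoped Classical
open Finset
open Pool.Agent.Helper94.KC
open Pool.Agent.Helper30.KC

variable {V : Type} [Fintype V]

/-- every vertex of a walk with at least one step is a hub -/
lemma hub_of_walk (T : Finset (Finset V)) {a b : V} (w : (HG T).Walk a b) (h : 0 < w.length) :
    ∀ x ∈ w.support, 7 ≤ dg T x := by
  induction w with
  | nil => simp at h
  | @cons u v w' hadj p ih =>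
    intro x hx
    rw [SimpleGraph.Walk.support_cons, List.mem_cons] at hx
    rcases hx with rfl | hx
    · exact hadj.2.1
    · by_cases hp : 0 < p.length
      · exact ih hp x hx
      · have hp0 : p.length = 0 := by omega
        cases p with
        | nil =>
          simp only [SimpleGraph.Walk.support_nil, List.mem_singleton] at hx
          rw [hx]
          exact hadj.2.2.1
        | cons h' q => simp at hp0

lemma dist_le_two (T : Finset (Finset V)) {a b : V} (h : (HG T).Adj a b) :
    (sk T).dist a b ≤ 2 := by
  obtain ⟨_, _, _, u, hau, hbu⟩ := h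
  have := SimpleGraph.dist_le (SimpleGraph.Walk.cons hau (SimpleGraph.Walk.cons hbu.symm
    SimpleGraph.Walk.nil))
  simpa using this

lemma dist_walk (T : Finset (Finset V)) (hc : (sk T).Connected) {a b : V} (w : (HG T).Walk a b) :
    (sk T).dist a b ≤ 2 * w.length := by
  induction w with
  | nil => simp
  | @cons u v w' hadj p ih =>
    have h1 := dist_le_two T hadj
    have h2 := hc.dist_triangle (u := u) (v := v) (w := w')
    rw [SimpleGraph.Walk.length_cons]
    omega

theorem pHM : Pool.Agent.Helper30.KC.StmtHM := by
  intro V _ T m hS hm a b hr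
  obtain ⟨w⟩ := hr
  let p := w.toPath
  have hd := dist_walk T hS.conn (p : (HG T).Walk a b)
  by_cases h0 : (p : (HG T).Walk a b).length = 0
  · rw [h0] at hd
    omega
  have hhub := hub_of_walk T (p : (HG T).Walk a b) (by omega)
  have hnd : (p : (HG T).Walk a b).support.Nodup := p.2.support_nodup
  have hsub : (p : (HG T).Walk a b).support.toFinset ⊆ univ.filter (fun v => 7 ≤ dg T v) := by
    intro x hx
    rw [List.mem_toFinset] at hx
    simpa using hhub x hx
  have hcard := Finset.card_le_card hsub
  rw [List.toFinset_card_of_nodup hnd, SimpleGraph.Walk.length_support] at hcard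
  omega

end Pool.Agent.Helper77.KT
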